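import Pool.Agent.Helper54.S4.Stmts

namespace Pool.Agent.Helper54.S4

open Finset Pool.Agent.Helper54.SP

theorem gi0_shear (x y : ℕ → ℝ) (α β : ℝ) (a b c : ℕ) :
    D3 (fun p => x p - α - β * y p) y a b c = D3 x y a b c := by
  unfold D3
  ring

/-- normalization: the points `2` and `5` on the axis -/
theorem gi0_norm (x y : ℕ → ℝ) (h : y 2 < y 5) :
    ∃ u : ℕ → ℝ, u 2 = 0 ∧ u 5 = 0 ∧ ∀ a b c, D3 u y a b c = D3 x y a b c := by
  have hne : y 5 - y 2 ≠ 0 := by linarith
  refine ⟨fun p => x p - (x 2 - (x 5 - x 2) / (y 5 - y 2) * y 2) -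
    (x 5 - x 2) / (y 5 - y 2) * y p, ?_, ?_, fun a b c => gi0_shear x y _ _ a b c⟩
  · simp only
    ring
  · simp only
    field_simp
    ring

/-- product of four inequalities -/
theorem gi0_mul {a b c d a' b' c' d' : ℝ} (ha : 0 < a) (hb : 0 < b) (hc : 0 < c) (hd : 0 < d)
    (h1 : a < a') (h2 : b < b') (h3 : c < c') (h4 : d < d') :
    a * b * c * d < a' * b' * c' * d' := by
  have k1 : a * b < a' * b' := mul_lt_mul'' h1 h2 ha.le hb.le
  have k2 : a * b * c < a' * b' * c' := mul_lt_mul'' k1 h3 (by positivity) hc.le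
  exact mul_lt_mul'' k2 h4 (by positivity) hd.le

theorem gi0_neg {s t : ℝ} (ht : 0 < t) (h : s * t < 0) : s < 0 := by
  by_contra hs
  have := mul_nonneg (not_lt.1 hs) ht.le
  linarith

theorem st_GI0 : ST_GI4 false := by
  intro x y hy hT
  refine ⟨fun h => absurd h (by decide), fun _ => ?_⟩
  have y0 := hy 0 (by norm_num)
  have y1 := hy 1 (by norm_num)
  have y2 := hy 2 (by norm_num)
  have y3 := hy 3 (by norm_num)
  have y4 := hy 4 (by norm_num)
  simp only [Nat.zero_add, Nat.reduceAdd] at y0 y1 y2 y3 y4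
  obtain ⟨u, u2, u5, hu⟩ := gi0_norm x y (by linarith)
  have t012 := hT (0, 1, 2) (by decide)
  have t045 := hT (0, 4, 5) (by decide)
  have t125 := hT (1, 2, 5) (by decide)
  have t135 := hT (1, 3, 5) (by decide)
  have t235 := hT (2, 3, 5) (by decide)
  have t234 := hT (2, 3, 4) (by decide)
  have e012 : tb4 false 0 1 2 = false := by decide
  have e045 : tb4 false 0 4 5 = true := by decide
  have e125 : tb4 false 1 2 5 = true := by decide
  have e135 : tb4 false 1 3 5 = false := by decide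
  have e235 : tb4 false 2 3 5 = false := by decide
  have e234 : tb4 false 2 3 4 = true := by decide
  simp only [e012] at t012
  simp only [e045] at t045
  simp only [e125] at t125
  simp only [e135] at t135
  simp only [e235] at t235
  simp only [e234] at t234
  rw [← hu] at t012 t045 t125 t135 t235 t234
  simp only [sb, D3, u2, u5, if_true, if_false, Bool.false_eq_true] at t012 t045 t125 t135 t235 t234
  have n1 : u 1 < 0 := gi0_neg (t := y 5 - y 2) (by linarith) (by nlinarith)
  have n3 : u 3 < 0 := gi0_neg (t := y 5 - y 2) (by linarith) (by nlinarith)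
  have f234 : u 4 * (y 3 - y 2) < u 3 * (y 4 - y 2) := by nlinarith
  have n4 : u 4 < 0 := gi0_neg (t := y 3 - y 2) (by linarith)
    (lt_trans f234 (mul_neg_of_neg_of_pos n3 (by linarith)))
  have f045 : u 0 * (y 5 - y 4) < u 4 * (y 5 - y 0) := by nlinarith
  have n0 : u 0 < 0 := gi0_neg (t := y 5 - y 4) (by linarith)
    (lt_trans f045 (mul_neg_of_neg_of_pos n4 (by linarith)))
  have f012 : u 1 * (y 2 - y 0) < u 0 * (y 2 - y 1) := by nlinarith
  have f135 : u 3 * (y 5 - y 1) < u 1 * (y 5 - y 3) := by nlinarith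
  have p0 : 0 < -u 0 := by linarith
  have p1 : 0 < -u 1 := by linarith
  have p3 : 0 < -u 3 := by linarith
  have p4 : 0 < -u 4 := by linarith
  have d21 : 0 < y 2 - y 1 := by linarith
  have d42 : 0 < y 4 - y 2 := by linarith
  have d50 : 0 < y 5 - y 0 := by linarith
  have d53 : 0 < y 5 - y 3 := by linarith
  have k := gi0_mul (mul_pos p0 d21) (mul_pos p3 d42) (mul_pos p4 d50) (mul_pos p1 d53)
    (show -u 0 * (y 2 - y 1) < -u 1 * (y 2 - y 0) by linarith)
    (show -u 3 * (y 4 - y 2) < -u 4 * (y 3 - y 2) by linarith)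
    (show -u 4 * (y 5 - y 0) < -u 0 * (y 5 - y 4) by linarith)
    (show -u 1 * (y 5 - y 3) < -u 3 * (y 5 - y 1) by linarith)
  have W : 0 < -u 0 * -u 1 * -u 3 * -u 4 := by positivity
  have k' : (-u 0 * -u 1 * -u 3 * -u 4) * FG y < (-u 0 * -u 1 * -u 3 * -u 4) * FF y := by
    unfold FF FG
    linarith
  exact lt_of_mul_lt_mul_left k' W.le

end Pool.Agent.Helper54.S4
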