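import Pool.Agent.Helper96.S4.GI0

namespace Pool.Agent.Helper54.S4

open Finset Pool.Agent.Helper54.SP

theorem st_GI1 : ST_GI4 true := by
  intro x y hy hT
  refine ⟨fun _ => ?_, fun h => absurd h (by decide)⟩
  have y0 := hy 0 (by norm_num)
  have y1 := hy 1 (by norm_num)
  have y2 := hy 2 (by norm_num)
  have y3 := hy 3 (by norm_num)
  have y4 := hy 4 (by norm_num)
  simp only [Nat.zero_add, Nat.reduceAdd] at y0 y1 y2 y3 y4
  obtain ⟨u, u2, u5, hu⟩ := gi0_norm x y (by linarith)
  have t012 := hT (0, 1, 2) (by decide)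
  have t035 := hT (0, 3, 5) (by decide)
  have t045 := hT (0, 4, 5) (by decide)
  have t135 := hT (1, 3, 5) (by decide)
  have t235 := hT (2, 3, 5) (by decide)
  have t245 := hT (2, 4, 5) (by decide)
  have t234 := hT (2, 3, 4) (by decide)
  have e012 : tb4 true 0 1 2 = true := by decide
  have e035 : tb4 true 0 3 5 = true := by decide
  have e045 : tb4 true 0 4 5 = false := by decide
  have e135 : tb4 true 1 3 5 = true := by decide
  have e235 : tb4 true 2 3 5 = false := by decide
  have e245 : tb4 true 2 4 5 = false := by decide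
  have e234 : tb4 true 2 3 4 = false := by decide
  simp only [e012] at t012
  simp only [e035] at t035
  simp only [e045] at t045
  simp only [e135] at t135
  simp only [e235] at t235
  simp only [e245] at t245
  simp only [e234] at t234
  rw [← hu] at t012 t035 t045 t135 t235 t245 t234
  simp only [sb, D3, u2, u5, if_true, if_false, Bool.false_eq_true] at t012 t035 t045 t135 t235 t245
  simp only [sb, D3, u2, u5, if_true, if_false, Bool.false_eq_true] at t234
  have n3 : u 3 < 0 := gi0_neg (t := y 5 - y 2) (by linarith) (by nlinarith)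
  have n4 : u 4 < 0 := gi0_neg (t := y 5 - y 2) (by linarith) (by nlinarith)
  have f135 : u 1 * (y 5 - y 3) < u 3 * (y 5 - y 1) := by nlinarith
  have n1 : u 1 < 0 := gi0_neg (t := y 5 - y 3) (by linarith)
    (lt_trans f135 (mul_neg_of_neg_of_pos n3 (by linarith)))
  have f035 : u 0 * (y 5 - y 3) < u 3 * (y 5 - y 0) := by nlinarith
  have n0 : u 0 < 0 := gi0_neg (t := y 5 - y 3) (by linarith)
    (lt_trans f035 (mul_neg_of_neg_of_pos n3 (by linarith)))
  have f012 : u 0 * (y 2 - y 1) < u 1 * (y 2 - y 0) := by nlinarith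
  have f234 : u 3 * (y 4 - y 2) < u 4 * (y 3 - y 2) := by nlinarith
  have f045 : u 4 * (y 5 - y 0) < u 0 * (y 5 - y 4) := by nlinarith
  have p0 : 0 < -u 0 := by linarith
  have p1 : 0 < -u 1 := by linarith
  have p3 : 0 < -u 3 := by linarith
  have p4 : 0 < -u 4 := by linarith
  have d20 : 0 < y 2 - y 0 := by linarith
  have d32 : 0 < y 3 - y 2 := by linarith
  have d54 : 0 < y 5 - y 4 := by linarith
  have d51 : 0 < y 5 - y 1 := by linarith
  have k := gi0_mul (mul_pos p1 d20) (mul_pos p4 d32) (mul_pos p0 d54) (mul_pos p3 d51)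
    (show -u 1 * (y 2 - y 0) < -u 0 * (y 2 - y 1) by linarith)
    (show -u 4 * (y 3 - y 2) < -u 3 * (y 4 - y 2) by linarith)
    (show -u 0 * (y 5 - y 4) < -u 4 * (y 5 - y 0) by linarith)
    (show -u 3 * (y 5 - y 1) < -u 1 * (y 5 - y 3) by linarith)
  have W : 0 < -u 0 * -u 1 * -u 3 * -u 4 := by positivity
  have k' : (-u 0 * -u 1 * -u 3 * -u 4) * FF y < (-u 0 * -u 1 * -u 3 * -u 4) * FG y := by
    unfold FF FG
    linarith
  exact lt_of_mul_lt_mul_left k' W.le

end Pool.Agent.Helper54.S4
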