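import Pool.Agent.Helper54.S4.Stmts

namespace Pool.Agent.Helper54.S4

open Finset Pool.Agent.Helper54.SP

noncomputable def mo4F (a b c d e f : ℝ) : ℝ := (c - a) * (d - c) * (f - b) * (f - e)
noncomputable def mo4G (a b c d e f : ℝ) : ℝ := (c - b) * (e - c) * (f - a) * (f - d)

theorem mo4_Gpos (a b c d e f : ℝ) (h0 : a < b) (h1 : b < c) (h2 : c < d) (h3 : d < e)
    (h4 : e < f) : 0 < mo4G a b c d e f := by
  unfold mo4G
  have e1 : 0 < c - b := by linarith
  have e2 : 0 < e - c := by linarith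
  have e3 : 0 < f - a := by linarith
  have e4 : 0 < f - d := by linarith
  positivity

theorem mo4_Fpos (a b c d e f : ℝ) (h0 : a < b) (h1 : b < c) (h2 : c < d) (h3 : d < e)
    (h4 : e < f) : 0 < mo4F a b c d e f := by
  unfold mo4F
  have e1 : 0 < c - a := by linarith
  have e2 : 0 < d - c := by linarith
  have e3 : 0 < f - b := by linarith
  have e4 : 0 < f - e := by linarith
  positivity

theorem mo4_s0 (a a' b c d e f : ℝ) (h : a ≤ a') (h0 : a' < b) (h1 : b < c) (h2 : c < d)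
    (h3 : d < e) (h4 : e < f) :
    mo4F a' b c d e f / mo4G a' b c d e f ≤ mo4F a b c d e f / mo4G a b c d e f := by
  rw [div_le_div_iff₀ (mo4_Gpos a' b c d e f h0 h1 h2 h3 h4)
    (mo4_Gpos a b c d e f (by linarith) h1 h2 h3 h4)]
  unfold mo4F mo4G
  have key : (c - a') * (f - a) ≤ (c - a) * (f - a') := by
    have : 0 ≤ (a' - a) * (f - c) := mul_nonneg (by linarith) (by linarith)
    nlinarith
  have e1 : 0 < d - c := by linarith
  have e2 : 0 < f - b := by linarith
  have e3 : 0 < f - e := by linarith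
  have e4 : 0 < c - b := by linarith
  have e5 : 0 < e - c := by linarith
  have e6 : 0 < f - d := by linarith
  have W : 0 ≤ (d - c) * (f - b) * (f - e) * (c - b) * (e - c) * (f - d) := by positivity
  have := mul_le_mul_of_nonneg_left key W
  linarith

theorem mo4_s1 (a b b' c d e f : ℝ) (h : b' ≤ b) (h0 : a < b') (h1 : b < c) (h2 : c < d)
    (h3 : d < e) (h4 : e < f) :
    mo4F a b' c d e f / mo4G a b' c d e f ≤ mo4F a b c d e f / mo4G a b c d e f := by
  rw [div_le_div_iff₀ (mo4_Gpos a b' c d e f h0 (by linarith) h2 h3 h4)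
    (mo4_Gpos a b c d e f (by linarith) h1 h2 h3 h4)]
  unfold mo4F mo4G
  have key : (f - b') * (c - b) ≤ (f - b) * (c - b') := by
    have : 0 ≤ (b - b') * (f - c) := mul_nonneg (by linarith) (by linarith)
    nlinarith
  have e1 : 0 < c - a := by linarith
  have e2 : 0 < d - c := by linarith
  have e3 : 0 < f - e := by linarith
  have e4 : 0 < e - c := by linarith
  have e5 : 0 < f - a := by linarith
  have e6 : 0 < f - d := by linarith
  have W : 0 ≤ (c - a) * (d - c) * (f - e) * (e - c) * (f - a) * (f - d) := by positivity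
  have := mul_le_mul_of_nonneg_left key W
  linarith

theorem mo4_s2 (a b c c' d e f : ℝ) (h : c ≤ c') (h0 : a < b) (h1 : b < c) (h2 : c' < d)
    (h3 : d < e) (h4 : e < f) :
    mo4F a b c' d e f / mo4G a b c' d e f ≤ mo4F a b c d e f / mo4G a b c d e f := by
  rw [div_le_div_iff₀ (mo4_Gpos a b c' d e f h0 (by linarith) h2 h3 h4)
    (mo4_Gpos a b c d e f h0 h1 (by linarith) h3 h4)]
  unfold mo4F mo4G
  have k1 : (c' - a) * (c - b) ≤ (c - a) * (c' - b) := by
    have : 0 ≤ (c' - c) * (b - a) := mul_nonneg (by linarith) (by linarith)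
    nlinarith
  have k2 : (d - c') * (e - c) ≤ (d - c) * (e - c') := by
    have : 0 ≤ (c' - c) * (e - d) := mul_nonneg (by linarith) (by linarith)
    nlinarith
  have e1 : 0 < d - c' := by linarith
  have e2 : 0 < e - c := by linarith
  have e3 : 0 < c - a := by linarith
  have e4 : 0 < c' - b := by linarith
  have e5 : 0 < f - b := by linarith
  have e6 : 0 < f - e := by linarith
  have e7 : 0 < f - a := by linarith
  have e8 : 0 < f - d := by linarith
  have k3 : (c' - a) * (c - b) * ((d - c') * (e - c)) ≤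
      (c - a) * (c' - b) * ((d - c) * (e - c')) :=
    mul_le_mul k1 k2 (by positivity) (by positivity)
  have W : 0 ≤ (f - b) * (f - e) * (f - a) * (f - d) := by positivity
  have := mul_le_mul_of_nonneg_left k3 W
  linarith

theorem mo4_s3 (a b c d d' e f : ℝ) (h : d' ≤ d) (h0 : a < b) (h1 : b < c) (h2 : c < d')
    (h3 : d < e) (h4 : e < f) :
    mo4F a b c d' e f / mo4G a b c d' e f ≤ mo4F a b c d e f / mo4G a b c d e f := by
  rw [div_le_div_iff₀ (mo4_Gpos a b c d' e f h0 h1 h2 (by linarith) h4)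
    (mo4_Gpos a b c d e f h0 h1 (by linarith) h3 h4)]
  unfold mo4F mo4G
  have key : (d' - c) * (f - d) ≤ (d - c) * (f - d') := by
    have : 0 ≤ (d - d') * (f - c) := mul_nonneg (by linarith) (by linarith)
    nlinarith
  have e1 : 0 < c - a := by linarith
  have e2 : 0 < f - b := by linarith
  have e3 : 0 < f - e := by linarith
  have e4 : 0 < c - b := by linarith
  have e5 : 0 < e - c := by linarith
  have e6 : 0 < f - a := by linarith
  have W : 0 ≤ (c - a) * (f - b) * (f - e) * (c - b) * (e - c) * (f - a) := by positivity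
  have := mul_le_mul_of_nonneg_left key W
  linarith

theorem mo4_s4 (a b c d e e' f : ℝ) (h : e ≤ e') (h0 : a < b) (h1 : b < c) (h2 : c < d)
    (h3 : d < e) (h4 : e' < f) :
    mo4F a b c d e' f / mo4G a b c d e' f ≤ mo4F a b c d e f / mo4G a b c d e f := by
  rw [div_le_div_iff₀ (mo4_Gpos a b c d e' f h0 h1 h2 (by linarith) h4)
    (mo4_Gpos a b c d e f h0 h1 h2 h3 (by linarith))]
  unfold mo4F mo4G
  have key : (f - e') * (e - c) ≤ (f - e) * (e' - c) := by
    have : 0 ≤ (e' - e) * (f - c) := mul_nonneg (by linarith) (by linarith)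
    nlinarith
  have e1 : 0 < c - a := by linarith
  have e2 : 0 < d - c := by linarith
  have e3 : 0 < f - b := by linarith
  have e4 : 0 < c - b := by linarith
  have e5 : 0 < f - a := by linarith
  have e6 : 0 < f - d := by linarith
  have W : 0 ≤ (c - a) * (d - c) * (f - b) * (c - b) * (f - a) * (f - d) := by positivity
  have := mul_le_mul_of_nonneg_left key W
  linarith

theorem mo4_s5 (a b c d e f f' : ℝ) (h : f' ≤ f) (h0 : a < b) (h1 : b < c) (h2 : c < d)
    (h3 : d < e) (h4 : e < f') :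
    mo4F a b c d e f' / mo4G a b c d e f' ≤ mo4F a b c d e f / mo4G a b c d e f := by
  rw [div_le_div_iff₀ (mo4_Gpos a b c d e f' h0 h1 h2 h3 h4)
    (mo4_Gpos a b c d e f h0 h1 h2 h3 (by linarith))]
  unfold mo4F mo4G
  have k1 : (f' - b) * (f - a) ≤ (f - b) * (f' - a) := by
    have : 0 ≤ (f - f') * (b - a) := mul_nonneg (by linarith) (by linarith)
    nlinarith
  have k2 : (f' - e) * (f - d) ≤ (f - e) * (f' - d) := by
    have : 0 ≤ (f - f') * (e - d) := mul_nonneg (by linarith) (by linarith)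
    nlinarith
  have e1 : 0 < f' - e := by linarith
  have e2 : 0 < f - d := by linarith
  have e3 : 0 < f - b := by linarith
  have e4 : 0 < f' - a := by linarith
  have e5 : 0 < c - a := by linarith
  have e6 : 0 < d - c := by linarith
  have e7 : 0 < c - b := by linarith
  have e8 : 0 < e - c := by linarith
  have k3 : (f' - b) * (f - a) * ((f' - e) * (f - d)) ≤
      (f - b) * (f' - a) * ((f - e) * (f' - d)) :=
    mul_le_mul k1 k2 (by positivity) (by positivity)
  have W : 0 ≤ (c - a) * (d - c) * (c - b) * (e - c) := by positivity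
  have := mul_le_mul_of_nonneg_left k3 W
  linarith

theorem mo4_all (y v : ℕ → ℝ)
    (hi : ∀ i, i < 5 → y i < y (i + 1) ∧ v i < y (i + 1) ∧ v i < v (i + 1))
    (hm : ∀ i, i < 6 → (i % 2 = 0 → y i ≤ v i) ∧ (i % 2 = 1 → v i ≤ y i)) :
    FF v / FG v ≤ FF y / FG y := by
  have a0 := hi 0 (by norm_num)
  have a1 := hi 1 (by norm_num)
  have a2 := hi 2 (by norm_num)
  have a3 := hi 3 (by norm_num)
  have a4 := hi 4 (by norm_num)
  have m0 : y 0 ≤ v 0 := (hm 0 (by norm_num)).1 (by norm_num)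
  have m1 : v 1 ≤ y 1 := (hm 1 (by norm_num)).2 (by norm_num)
  have m2 : y 2 ≤ v 2 := (hm 2 (by norm_num)).1 (by norm_num)
  have m3 : v 3 ≤ y 3 := (hm 3 (by norm_num)).2 (by norm_num)
  have m4 : y 4 ≤ v 4 := (hm 4 (by norm_num)).1 (by norm_num)
  have m5 : v 5 ≤ y 5 := (hm 5 (by norm_num)).2 (by norm_num)
  simp only [Nat.zero_add, Nat.reduceAdd] at a0 a1 a2 a3 a4
  have s0 := mo4_s0 (y 0) (v 0) (y 1) (y 2) (y 3) (y 4) (y 5) m0 a0.2.1 a1.1 a2.1 a3.1 a4.1
  have s1 := mo4_s1 (v 0) (y 1) (v 1) (y 2) (y 3) (y 4) (y 5) m1 a0.2.2 a1.1 a2.1 a3.1 a4.1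
  have s2 := mo4_s2 (v 0) (v 1) (y 2) (v 2) (y 3) (y 4) (y 5) m2 a0.2.2 a1.2.1 a2.2.1 a3.1 a4.1
  have s3 := mo4_s3 (v 0) (v 1) (v 2) (y 3) (v 3) (y 4) (y 5) m3 a0.2.2 a1.2.2 a2.2.2 a3.1 a4.1
  have s4 := mo4_s4 (v 0) (v 1) (v 2) (v 3) (y 4) (v 4) (y 5) m4 a0.2.2 a1.2.2 a2.2.2 a3.2.1
    a4.2.1
  have s5 := mo4_s5 (v 0) (v 1) (v 2) (v 3) (v 4) (y 5) (v 5) m5 a0.2.2 a1.2.2 a2.2.2 a3.2.2
    a4.2.2
  exact (((((s5.trans s4).trans s3).trans s2).trans s1).trans s0)

theorem mo4_pos (y : ℕ → ℝ) (hi : ∀ i, i < 5 → y i < y (i + 1)) : 0 < FF y ∧ 0 < FG y := by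
  have a0 := hi 0 (by norm_num)
  have a1 := hi 1 (by norm_num)
  have a2 := hi 2 (by norm_num)
  have a3 := hi 3 (by norm_num)
  have a4 := hi 4 (by norm_num)
  exact ⟨mo4_Fpos (y 0) (y 1) (y 2) (y 3) (y 4) (y 5) a0 a1 a2 a3 a4,
    mo4_Gpos (y 0) (y 1) (y 2) (y 3) (y 4) (y 5) a0 a1 a2 a3 a4⟩

theorem st_MO4 : ST_MO4 := by
  intro y v hi
  have py := mo4_pos y (fun i h => (hi i h).1)
  have pv := mo4_pos v (fun i h => (hi i h).2.2.2)
  refine ⟨fun hm h => ?_, fun hm h => ?_⟩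
  · have k := mo4_all y v (fun i h => ⟨(hi i h).1, (hi i h).2.2.1, (hi i h).2.2.2⟩) hm
    have h1 : FF y / FG y < 1 := (div_lt_one py.2).2 h
    exact (div_lt_one pv.2).1 (lt_of_le_of_lt k h1)
  · have k := mo4_all v y (fun i h => ⟨(hi i h).2.2.2, (hi i h).2.1, (hi i h).1⟩) hm
    have h1 : 1 < FF y / FG y := (one_lt_div py.2).2 h
    exact (one_lt_div pv.2).1 (lt_of_lt_of_le h1 k)

end Pool.Agent.Helper54.S4
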