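import Pool.Agent.Helper54.S4.Stmts

namespace Pool.Agent.Helper54.S4

open Finset Pool.Agent.Helper54.SP

theorem rt4_cont (v : ℕ → ℝ) (o i : ℕ) : Continuous (fun s : ℝ => Function.update v o s i) := by
  by_cases h : i = o
  · subst h
    simp only [Function.update_self]
    exact continuous_id
  · simp only [Function.update_of_ne h]
    exact continuous_const

theorem rt4_FF (v : ℕ → ℝ) (o : ℕ) : Continuous (fun s : ℝ => FF (Function.update v o s)) := by
  unfold FF
  exact ((((rt4_cont v o 2).sub (rt4_cont v o 0)).mul ((rt4_cont v o 3).sub (rt4_cont v o 2))).mul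
    ((rt4_cont v o 5).sub (rt4_cont v o 1))).mul ((rt4_cont v o 5).sub (rt4_cont v o 4))

theorem rt4_FG (v : ℕ → ℝ) (o : ℕ) : Continuous (fun s : ℝ => FG (Function.update v o s)) := by
  unfold FG
  exact ((((rt4_cont v o 2).sub (rt4_cont v o 1)).mul ((rt4_cont v o 4).sub (rt4_cont v o 2))).mul
    ((rt4_cont v o 5).sub (rt4_cont v o 0))).mul ((rt4_cont v o 5).sub (rt4_cont v o 3))

theorem st_RT4 : ST_RT4 := by
  intro v o r r' hr h1 h2
  have hc : Continuous (fun s : ℝ => FG (Function.update v o s) - FF (Function.update v o s)) :=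
    (rt4_FG v o).sub (rt4_FF v o)
  have hiv := intermediate_value_Ioo hr.le hc.continuousOn
  have hm : (0 : ℝ) ∈ Set.Ioo (FG (Function.update v o r) - FF (Function.update v o r))
      (FG (Function.update v o r') - FF (Function.update v o r')) :=
    ⟨by linarith, by linarith⟩
  obtain ⟨s, hs, hs0⟩ := hiv hm
  exact ⟨s, hs.1, hs.2, by simp only at hs0; linarith⟩

end Pool.Agent.Helper54.S4
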